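import Pool.Agent.H9.ApolarReg.Defs

namespace Pool.Agent.H9.ApolarReg

open MvPolynomial

variable {n : ℕ}

theorem pd_iter (i : Fin n) (k : ℕ) (t : Fin n →₀ ℕ) (c : ℂ) :
    (pderiv i)^[k] (monomial t c)
      = monomial (t - Finsupp.single i k) (c * ((t i).descFactorial k : ℕ)) := by
  induction k with
  | zero => simp
  | succ k ih =>
    rw [Function.iterate_succ_apply', ih, pderiv_monomial, Nat.descFactorial_succ]
    congr 1
    · rw [tsub_tsub, ← Finsupp.single_add]
    · rw [Finsupp.tsub_apply, Finsupp.single_eq_same]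
      push_cast
      ring

theorem fold_mon (s t : Fin n →₀ ℕ) (c : ℂ) (l : List (Fin n)) (hl : l.Nodup) :
    l.foldr (fun i h => (pderiv i)^[s i] h) (monomial t c)
      = monomial (t - (l.map (fun i => Finsupp.single i (s i))).sum)
        (c * ((l.map (fun i => (t i).descFactorial (s i))).prod : ℕ)) := by
  induction l with
  | nil => simp
  | cons i l ih =>
    rw [List.nodup_cons] at hl
    rw [List.foldr_cons, ih hl.2, pd_iter]
    have h0 : (l.map (fun i => Finsupp.single i (s i))).sum i = 0 := by
      have hi := hl.1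
      clear ih hl
      induction l with
      | nil => simp
      | cons j l ih =>
        rw [List.mem_cons, not_or] at hi
        rw [List.map_cons, List.sum_cons, Finsupp.add_apply, ih hi.2, Finsupp.single_apply,
          if_neg (fun h => hi.1 h.symm)]
    congr 1
    · rw [List.map_cons, List.sum_cons, tsub_tsub, add_comm]
    · rw [Finsupp.tsub_apply, h0, List.map_cons, List.prod_cons]
      push_cast
      rw [Nat.sub_zero]
      ring

theorem sum_singles (s : Fin n →₀ ℕ) :
    ((List.finRange n).map (fun i => Finsupp.single i (s i))).sum = s := by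
  rw [← Fin.sum_univ_def]
  exact Finsupp.univ_sum_single s

theorem diffMon_mon (s t : Fin n →₀ ℕ) (c : ℂ) :
    diffMon s (monomial t c)
      = monomial (t - s) (c * ((∏ i, (t i).descFactorial (s i) : ℕ) : ℂ)) := by
  unfold diffMon
  rw [fold_mon s t c _ (List.nodup_finRange n), sum_singles]
  rw [Fin.prod_univ_def]

/-- The differential operator as a linear map. -/
theorem diffMon_add (s : Fin n →₀ ℕ) (f g : Sn n) : diffMon s (f + g) = diffMon s f + diffMon s g := by
  unfold diffMon
  induction List.finRange n with
  | nil => rfl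
  | cons i l ih => rw [List.foldr_cons, ih, iterate_map_add, List.foldr_cons, List.foldr_cons]

theorem diffMon_zero (s : Fin n →₀ ℕ) : diffMon s (0 : Sn n) = 0 := by
  have := diffMon_add s (0 : Sn n) 0
  rw [add_zero] at this
  exact left_eq_add.1 this

theorem diffMon_sum (s : Fin n →₀ ℕ) {ι : Type*} (S : Finset ι) (f : ι → Sn n) :
    diffMon s (∑ i ∈ S, f i) = ∑ i ∈ S, diffMon s (f i) := by
  classical
  induction S using Finset.induction_on with
  | empty => simp [diffMon_zero]
  | insert a S ha ih => rw [Finset.sum_insert ha, diffMon_add, ih, Finset.sum_insert ha]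

theorem diffMon_mon_zero (s t : Fin n →₀ ℕ) (c : ℂ) (h : ¬ s ≤ t) :
    diffMon s (monomial t c) = 0 := by
  rw [diffMon_mon]
  have : ∃ i, ¬ s i ≤ t i := by
    by_contra h'
    push Not at h'
    exact h h'
  obtain ⟨i, hi⟩ := this
  have h0 : ∏ i, (t i).descFactorial (s i) = 0 :=
    Finset.prod_eq_zero (Finset.mem_univ i) (Nat.descFactorial_eq_zero_iff_lt.2 (not_le.1 hi))
  rw [h0, Nat.cast_zero, mul_zero, monomial_zero]

/-- Forms of degree larger than `d` kill forms of degree `d`. -/
theorem diffMon_high (s : Fin n →₀ ℕ) (f : Sn n) (d : ℕ) (hf : f.IsHomogeneous d)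
    (hs : d < s.degree) : diffMon s f = 0 := by
  rw [f.as_sum, diffMon_sum]
  apply Finset.sum_eq_zero
  intro t ht
  apply diffMon_mon_zero
  intro hst
  have h1 : t.degree = d := by
    by_contra hne
    exact (mem_support_iff.1 ht) (hf.coeff_eq_zero hne)
  have h2 : s.degree ≤ t.degree := Finsupp.degree_mono hst
  omega

theorem act_eq_finsum (g f : Sn n) (S : Finset (Fin n →₀ ℕ)) (hS : g.support ⊆ S) :
    act g f = ∑ s ∈ S, coeff s g • diffMon s f := by
  unfold act
  apply Finset.sum_subset hS
  intro s _ hs
  rw [notMem_support_iff.1 hs, zero_smul]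

theorem act_add (g h f : Sn n) : act (g + h) f = act g f + act h f := by
  classical
  rw [act_eq_finsum (g + h) f (g.support ∪ h.support) support_add,
    act_eq_finsum g f (g.support ∪ h.support) Finset.subset_union_left,
    act_eq_finsum h f (g.support ∪ h.support) Finset.subset_union_right, ← Finset.sum_add_distrib]
  apply Finset.sum_congr rfl
  intro s _
  rw [coeff_add, add_smul]

theorem act_zero (f : Sn n) : act 0 f = 0 := by
  simp [act]

theorem act_sum {ι : Type*} (S : Finset ι) (g : ι → Sn n) (f : Sn n) :
    act (∑ i ∈ S, g i) f = ∑ i ∈ S, act (g i) f := by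
  classical
  induction S using Finset.induction_on with
  | empty => simp [act_zero]
  | insert a S ha ih => rw [Finset.sum_insert ha, act_add, ih, Finset.sum_insert ha]

theorem act_high (g f : Sn n) (d e : ℕ) (hf : f.IsHomogeneous d) (hg : g.IsHomogeneous e)
    (hde : d < e) : act g f = 0 := by
  unfold act
  apply Finset.sum_eq_zero
  intro s hs
  have h1 : s.degree = e := by
    by_contra hne
    exact (mem_support_iff.1 hs) (hg.coeff_eq_zero hne)
  rw [diffMon_high s f d hf (by omega), smul_zero]

/-- A polynomial all of whose coefficients at divisors of `X^t` vanish kills `X^t`. -/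
theorem act_mon_zero (g : Sn n) (t : Fin n →₀ ℕ) (h : ∀ s ≤ t, coeff s g = 0) :
    act g (monomial t 1) = 0 := by
  unfold act
  apply Finset.sum_eq_zero
  intro s hs
  rw [diffMon_mon_zero, smul_zero]
  intro hst
  exact (mem_support_iff.1 hs) (h s hst)

theorem act_mon_self (t : Fin n →₀ ℕ) : act (monomial t 1 : Sn n) (monomial t 1) ≠ 0 := by
  rw [act_eq_finsum _ _ {t} (by
    intro s hs
    have := mem_support_iff.1 hs
    rw [coeff_monomial] at this
    rw [Finset.mem_singleton]
    by_contra hne
    rw [if_neg (fun h => hne h.symm)] at this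
    exact this rfl), Finset.sum_singleton, coeff_monomial, if_pos rfl, one_smul, diffMon_mon,
    tsub_self, one_mul]
  intro h
  rw [monomial_eq_zero] at h
  have h2 : (∏ i, (t i).descFactorial (t i)) = 0 := by exact_mod_cast h
  rw [Finset.prod_eq_zero_iff] at h2
  obtain ⟨i, _, hi⟩ := h2
  rw [Nat.descFactorial_eq_zero_iff_lt] at hi
  omega

end Pool.Agent.H9.ApolarReg
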