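import Pool.Agent.H9.ApolarReg.Act

namespace Pool.Agent.H9.ApolarReg

open MvPolynomial

variable {n : ℕ}

/-- The weight of an exponent. -/
def wt (w : Fin n → ℕ) (s : Fin n →₀ ℕ) : ℕ := ∑ j, w j * s j

/-- The parametrisation `X_j ↦ z T^{w_j}`. -/
noncomputable def Psi (w : Fin n → ℕ) : Sn n →ₐ[ℂ] Polynomial (Polynomial ℂ) :=
  aeval (fun j => Polynomial.C Polynomial.X * Polynomial.X ^ w j)

theorem Psi_mon (w : Fin n → ℕ) (s : Fin n →₀ ℕ) (c : ℂ) :
    Psi w (monomial s c)
      = Polynomial.monomial (wt w s) (Polynomial.monomial s.degree c) := by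
  unfold Psi
  rw [aeval_monomial, Finsupp.prod_fintype _ _ (fun i => pow_zero _)]
  have h1 : ∏ j, (Polynomial.C Polynomial.X * Polynomial.X ^ w j : Polynomial (Polynomial ℂ)) ^ s j
      = Polynomial.C (Polynomial.X ^ s.degree) * Polynomial.X ^ wt w s := by
    simp only [mul_pow, Finset.prod_mul_distrib, ← pow_mul]
    rw [Finset.prod_pow_eq_pow_sum, Finset.prod_pow_eq_pow_sum, Polynomial.C_pow,
      Finsupp.degree_eq_sum]
    rfl
  rw [h1]
  have h2 : algebraMap ℂ (Polynomial (Polynomial ℂ)) c = Polynomial.C (Polynomial.C c) := rfl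
  rw [h2, ← mul_assoc, ← Polynomial.C_mul, Polynomial.C_mul_X_pow_eq_monomial,
    Polynomial.C_mul_X_pow_eq_monomial]

/-- The bigraded coefficient functional. -/
noncomputable def Lam (w : Fin n → ℕ) (i m : ℕ) : Sn n →ₗ[ℂ] ℂ :=
  (Polynomial.lcoeff ℂ i) ∘ₗ ((Polynomial.lcoeff (Polynomial ℂ) m).restrictScalars ℂ)
    ∘ₗ (Psi w).toLinearMap

theorem Lam_apply (w : Fin n → ℕ) (i m : ℕ) (g : Sn n) :
    Lam w i m g = ((Psi w g).coeff m).coeff i := rfl

theorem Lam_mon (w : Fin n → ℕ) (i m : ℕ) (s : Fin n →₀ ℕ) (c : ℂ) :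
    Lam w i m (monomial s c) = if wt w s = m ∧ s.degree = i then c else 0 := by
  rw [Lam_apply, Psi_mon, Polynomial.coeff_monomial]
  by_cases h1 : wt w s = m
  · rw [if_pos h1, Polynomial.coeff_monomial]
    by_cases h2 : s.degree = i
    · rw [if_pos h2, if_pos ⟨h1, h2⟩]
    · rw [if_neg h2, if_neg (fun h => h2 h.2)]
  · rw [if_neg h1, if_neg (fun h => h1 h.1), Polynomial.coeff_zero]

theorem Lam_sum (w : Fin n → ℕ) (i m : ℕ) (g : Sn n) :
    Lam w i m g = ∑ s ∈ g.support, if wt w s = m ∧ s.degree = i then coeff s g else 0 := by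
  conv_lhs => rw [g.as_sum, map_sum]
  apply Finset.sum_congr rfl
  intro s _
  rw [Lam_mon]

theorem Lam_hom (w : Fin n → ℕ) (i j m : ℕ) (g : Sn n) (hg : g.IsHomogeneous i) (hij : j ≠ i) :
    Lam w j m g = 0 := by
  rw [Lam_sum]
  apply Finset.sum_eq_zero
  intro s hs
  rw [if_neg]
  rintro ⟨-, h⟩
  apply mem_support_iff.1 hs
  exact hg.coeff_eq_zero (by rw [h]; exact hij)

theorem Lam_comp (w : Fin n → ℕ) (i m : ℕ) (g : Sn n) :
    Lam w i m (homogeneousComponent i g) = Lam w i m g := by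
  conv_rhs => rw [← sum_homogeneousComponent g, map_sum]
  by_cases h : i < g.totalDegree + 1
  · rw [Finset.sum_eq_single_of_mem i (Finset.mem_range.2 h)]
    intro j _ hj
    exact Lam_hom w j i m _ (homogeneousComponent_isHomogeneous j g) hj.symm
  · rw [homogeneousComponent_eq_zero _ _ (by omega), map_zero]
    symm
    apply Finset.sum_eq_zero
    intro j hj
    apply Lam_hom w j i m _ (homogeneousComponent_isHomogeneous j g)
    have := Finset.mem_range.1 hj
    omega

/-- The ideal of the curvilinear scheme. -/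
noncomputable def cI (w : Fin n → ℕ) (e : ℕ) : Ideal (Sn n) :=
  (Ideal.span {(Polynomial.X : Polynomial (Polynomial ℂ)) ^ e}).comap (Psi w)

theorem mem_cI (w : Fin n → ℕ) (e : ℕ) (g : Sn n) :
    g ∈ cI w e ↔ ∀ m < e, (Psi w g).coeff m = 0 := by
  unfold cI
  rw [Ideal.mem_comap, Ideal.mem_span_singleton]
  exact Polynomial.X_pow_dvd_iff

theorem mem_cI' (w : Fin n → ℕ) (e : ℕ) (g : Sn n) :
    g ∈ cI w e ↔ ∀ m < e, ∀ i, Lam w i m g = 0 := by
  rw [mem_cI]
  constructor
  · intro h m hm i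
    rw [Lam_apply, h m hm, Polynomial.coeff_zero]
  · intro h m hm
    ext i
    rw [Polynomial.coeff_zero]
    exact h m hm i

theorem mem_cI_hom (w : Fin n → ℕ) (e i : ℕ) (g : Sn n) (hg : g.IsHomogeneous i) :
    g ∈ cI w e ↔ ∀ m < e, Lam w i m g = 0 := by
  rw [mem_cI']
  constructor
  · intro h m hm
    exact h m hm i
  · intro h m hm j
    by_cases hj : j = i
    · rw [hj]
      exact h m hm
    · exact Lam_hom w i j m g hg hj

theorem cI_homog (w : Fin n → ℕ) (e : ℕ) : IsHomog (cI w e) := by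
  intro g hg i
  rw [mem_cI_hom w e i _ (homogeneousComponent_isHomogeneous i g)]
  intro m hm
  rw [Lam_comp]
  exact (mem_cI' w e g).1 hg m hm i

theorem Psi_X (w : Fin n → ℕ) (j : Fin n) :
    Psi w (X j) = Polynomial.C Polynomial.X * Polynomial.X ^ w j := by
  unfold Psi
  rw [aeval_X]

theorem cI_sat (w : Fin n → ℕ) (e : ℕ) (z : Fin n) (hz : w z = 0) : IsSaturated (cI w e) := by
  intro g hg
  have h := (mem_cI w e _).1 (hg z)
  rw [mem_cI]
  intro m hm
  have h1 := h m hm
  rw [map_mul, Psi_X, hz, pow_zero, mul_one, Polynomial.coeff_C_mul] at h1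
  rcases mul_eq_zero.1 h1 with h2 | h2
  · exact absurd h2 Polynomial.X_ne_zero
  · exact h2

theorem Psi_of_hom (w : Fin n → ℕ) (i m : ℕ) (g : Sn n) (hg : g.IsHomogeneous i) :
    (Psi w g).coeff m = Polynomial.monomial i (Lam w i m g) := by
  ext j
  rw [Polynomial.coeff_monomial]
  by_cases hj : i = j
  · rw [if_pos hj, ← hj]
    rfl
  · rw [if_neg hj]
    exact Lam_hom w i j m g hg (fun h => hj h.symm)

/-- Any strictly larger scheme ideal contains the test monomial. -/
theorem irr (w : Fin n → ℕ) (e : ℕ) (z : Fin n) (hz : w z = 0) (hpos : ∀ j, j ≠ z → 1 ≤ w j)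
    (he : 1 ≤ e) (hall : ∀ m < e, ∃ s : Fin n →₀ ℕ, wt w s = m)
    (t : Fin n →₀ ℕ) (ht : wt w t = e - 1)
    (I' : Ideal (Sn n)) (hI' : IsSchemeIdeal I') (hlt : cI w e < I') :
    (monomial t 1 : Sn n) ∈ I' := by
  classical
  obtain ⟨hle, hne⟩ := lt_iff_le_and_ne.1 hlt
  obtain ⟨g, hgI', hgI⟩ : ∃ g ∈ I', g ∉ cI w e := by
    by_contra hcon
    push Not at hcon
    exact hne (le_antisymm hle hcon)
  obtain ⟨i, hi⟩ : ∃ i, homogeneousComponent i g ∉ cI w e := by
    by_contra hcon
    push Not at hcon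
    apply hgI
    rw [← sum_homogeneousComponent g]
    exact Ideal.sum_mem _ (fun i _ => hcon i)
  set G := homogeneousComponent i g with hG
  have hGhom : G.IsHomogeneous i := homogeneousComponent_isHomogeneous i g
  have hGI' : G ∈ I' := hI'.1 g hgI' i
  rw [mem_cI_hom w e i G hGhom] at hi
  push Not at hi
  have hex : ∃ k, k < e ∧ Lam w i k G ≠ 0 := hi
  set k := Nat.find hex with hk
  obtain ⟨hke, hku⟩ : k < e ∧ Lam w i k G ≠ 0 := Nat.find_spec hex
  have hmin : ∀ m < k, Lam w i m G = 0 := by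
    intro m hm
    have h1 := Nat.find_min hex hm
    by_contra h2
    exact h1 ⟨by omega, h2⟩
  set u := Lam w i k G with hu
  obtain ⟨s1, hs1⟩ := hall (e - 1 - k) (by omega)
  -- the combination
  set N := s1.degree + i with hN
  have hF' : X z ^ t.degree * (monomial s1 1 * G) - C u * (X z ^ N * monomial t 1) ∈ cI w e := by
    rw [mem_cI]
    intro m hm
    have hPz : ∀ N : ℕ, Psi w (X z ^ N) = Polynomial.C (Polynomial.X ^ N) := by
      intro N
      rw [map_pow, Psi_X, hz, pow_zero, mul_one, Polynomial.C_pow]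
    have hCu : Psi w (C u) = Polynomial.C (Polynomial.C u) := by
      rw [C_apply, Psi_mon]
      simp [wt]
    rw [map_sub, map_mul, map_mul, map_mul, map_mul, hPz, hPz, hCu, Psi_mon, Psi_mon, hs1, ht,
      Polynomial.coeff_sub, Polynomial.coeff_C_mul, Polynomial.coeff_C_mul, Polynomial.coeff_C_mul,
      Polynomial.coeff_monomial, ← Polynomial.C_mul_X_pow_eq_monomial, mul_assoc,
      Polynomial.coeff_C_mul, Polynomial.coeff_X_pow_mul']
    by_cases hm1 : e - 1 - k ≤ m
    · rw [if_pos hm1, Psi_of_hom w i _ G hGhom]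
      by_cases hm2 : m = e - 1
      · subst hm2
        rw [if_pos rfl, show e - 1 - (e - 1 - k) = k by omega, ← hu,
          ← Polynomial.C_mul_X_pow_eq_monomial, ← Polynomial.C_mul_X_pow_eq_monomial,
          ← Polynomial.C_mul_X_pow_eq_monomial, hN, Polynomial.C_1, pow_add]
        ring
      · rw [if_neg (fun h => hm2 h.symm), hmin _ (by omega), map_zero, mul_zero, mul_zero, mul_zero,
          mul_zero, sub_zero]
    · rw [if_neg hm1, if_neg (by omega), mul_zero, mul_zero, mul_zero, mul_zero, sub_zero]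
  have h1 : C u * (X z ^ N * monomial t 1) ∈ I' := by
    have h2 : X z ^ t.degree * (monomial s1 1 * G) ∈ I' :=
      Ideal.mul_mem_left _ _ (Ideal.mul_mem_left _ _ hGI')
    have h3 := I'.sub_mem h2 (hle hF')
    rw [sub_sub_cancel] at h3
    exact h3
  have h2 : X z ^ N * monomial t 1 ∈ I' := by
    have h3 := Ideal.mul_mem_left I' (C u⁻¹) h1
    rwa [← mul_assoc, ← C_mul, inv_mul_cancel₀ hku, C_1, one_mul] at h3
  -- saturate
  have hdown : ∀ m : ℕ, X z ^ (m + 1) * monomial t 1 ∈ I' → X z ^ m * monomial t 1 ∈ I' := by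
    intro m hm
    apply hI'.2
    intro j
    by_cases hj : j = z
    · rw [hj, ← mul_assoc, ← pow_succ']
      exact hm
    · apply hle
      rw [mem_cI]
      intro m' hm'
      rw [map_mul, map_mul, map_pow, Psi_X, Psi_X, hz, pow_zero, mul_one, Psi_mon, ht,
        ← Polynomial.C_pow, mul_assoc, Polynomial.coeff_C_mul, Polynomial.coeff_X_pow_mul']
      by_cases h4 : w j ≤ m'
      · have := hpos j hj
        rw [if_pos h4, Polynomial.coeff_C_mul, Polynomial.coeff_monomial, if_neg (by omega), mul_zero,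
          mul_zero]
      · rw [if_neg h4, mul_zero]
  have hall' : ∀ m : ℕ, X z ^ m * monomial t 1 ∈ I' → (monomial t 1 : Sn n) ∈ I' := by
    intro m
    induction m with
    | zero => intro h; rwa [pow_zero, one_mul] at h
    | succ m ih => intro h; exact ih (hdown m h)
  exact hall' N h2

end Pool.Agent.H9.ApolarReg
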