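import Mathlib

/-!
# Regularity of irredundant apolar schemes: definitions

`V = ℂⁿ`.  Both `S = Sym V*` (acting) and `Sym V` (acted on) are identified with
`ℂ[X_0, …, X_{n-1}]`.
-/

namespace Pool.Agent.H9.ApolarReg

open MvPolynomial

/-- The polynomial ring in `n` variables over `ℂ`. -/
abbrev Sn (n : ℕ) : Type := MvPolynomial (Fin n) ℂ

/-- The iterated partial derivative `(∂/∂X_0)^{s 0} ⋯ (∂/∂X_{n-1})^{s (n-1)} f`. -/
noncomputable def diffMon {n : ℕ} (s : Fin n →₀ ℕ) (f : Sn n) : Sn n :=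
  (List.finRange n).foldr (fun i h => (pderiv i)^[s i] h) f

/-- The action `g ∘ f` of `g ∈ S` on `f ∈ Sym V` by differentiation. -/
noncomputable def act {n : ℕ} (g f : Sn n) : Sn n :=
  ∑ s ∈ g.support, coeff s g • diffMon s f

/-- `I ⊆ Ann(f)`: every element of `I` kills `f`. -/
def IsApolar {n : ℕ} (I : Ideal (Sn n)) (f : Sn n) : Prop := ∀ g ∈ I, act g f = 0

/-- `I` is saturated with respect to the irrelevant ideal `(x_0, …, x_{n-1})`. -/
def IsSaturated {n : ℕ} (I : Ideal (Sn n)) : Prop := ∀ g, (∀ i, X i * g ∈ I) → g ∈ I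

/-- `I` is homogeneous: it contains the homogeneous components of its elements. -/
def IsHomog {n : ℕ} (I : Ideal (Sn n)) : Prop := ∀ g ∈ I, ∀ i, homogeneousComponent i g ∈ I

/-- `I` is the saturated homogeneous ideal of a closed subscheme of `ℙV = ℙⁿ⁻¹`
(the unit ideal corresponds to the empty scheme). -/
def IsSchemeIdeal {n : ℕ} (I : Ideal (Sn n)) : Prop := IsHomog I ∧ IsSaturated I

/-- The Hilbert function `h(i) = dim (S/I)_i`, where `(S/I)_i` is the image of the space of forms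
of degree `i` in `S/I`. -/
noncomputable def hilb {n : ℕ} (I : Ideal (Sn n)) (i : ℕ) : ℕ :=
  Module.finrank ℂ
    ((homogeneousSubmodule (Fin n) ℂ i).map (Ideal.Quotient.mkₐ ℂ I).toLinearMap)

/-- `I` is the saturated homogeneous ideal of a (nonempty) `0`-dimensional scheme of degree `D`. -/
def IsZeroDim {n : ℕ} (I : Ideal (Sn n)) (D : ℕ) : Prop :=
  IsSchemeIdeal I ∧ 0 < D ∧ ∀ᶠ i in Filter.atTop, hilb I i = D

/-- The scheme with ideal `I` is irredundant for `f`: it is apolar to `f` and no proper subscheme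
is apolar to `f`. -/
def IsIrredundant {n : ℕ} (I : Ideal (Sn n)) (f : Sn n) : Prop :=
  IsApolar I f ∧ ∀ I' : Ideal (Sn n), IsSchemeIdeal I' → I < I' → ¬ IsApolar I' f

/-- The regularity of a `0`-dimensional scheme of degree `D`: the least `i ≥ 0` with
`h(i) = D`. -/
noncomputable def reg {n : ℕ} (I : Ideal (Sn n)) (D : ℕ) : ℕ := sInf {i | hilb I i = D}

/-- The set of regularities of `0`-dimensional schemes in `ℙⁿ⁻¹` that are irredundant for some
nonzero form of degree `d` in `n` variables. -/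
def regs (n d : ℕ) : Set ℕ :=
  {r | ∃ (f : Sn n) (I : Ideal (Sn n)) (D : ℕ), f ≠ 0 ∧ f.IsHomogeneous d ∧ IsZeroDim I D ∧
    IsIrredundant I f ∧ r = reg I D}

/-- `M(n, d)`, the supremum of these regularities, in `ℕ ∪ {∞}`. -/
noncomputable def M (n d : ℕ) : ℕ∞ := ⨆ r ∈ regs n d, (r : ℕ∞)

end Pool.Agent.H9.ApolarReg
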