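import Pool.Agent.H9.ApolarReg.Curvi

namespace Pool.Agent.H9.ApolarReg

open MvPolynomial

variable {n : ℕ}

theorem finrank_map_eq {M N1 N2 : Type*} [AddCommGroup M] [Module ℂ M] [AddCommGroup N1]
    [Module ℂ N1] [AddCommGroup N2] [Module ℂ N2] (U : Submodule ℂ M) (f : M →ₗ[ℂ] N1)
    (g : M →ₗ[ℂ] N2) (h : ∀ u ∈ U, f u = 0 ↔ g u = 0) :
    Module.finrank ℂ (U.map f) = Module.finrank ℂ (U.map g) := by
  have h1 : U.map f = LinearMap.range (f ∘ₗ U.subtype) := by
    rw [LinearMap.range_comp, Submodule.range_subtype]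
  have h2 : U.map g = LinearMap.range (g ∘ₗ U.subtype) := by
    rw [LinearMap.range_comp, Submodule.range_subtype]
  have h3 : LinearMap.ker (f ∘ₗ U.subtype) = LinearMap.ker (g ∘ₗ U.subtype) := by
    ext u
    rw [LinearMap.mem_ker, LinearMap.mem_ker]
    exact h u u.2
  rw [h1, h2]
  exact ((LinearMap.quotKerEquivRange (f ∘ₗ U.subtype)).symm.trans
    ((Submodule.quotEquivOfEq _ _ h3).trans
      (LinearMap.quotKerEquivRange (g ∘ₗ U.subtype)))).finrank_eq

theorem mk_zero (I : Ideal (Sn n)) (g : Sn n) :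
    (Ideal.Quotient.mkₐ ℂ I).toLinearMap g = 0 ↔ g ∈ I := by
  rw [AlgHom.toLinearMap_apply, Ideal.Quotient.mkₐ_eq_mk, Ideal.Quotient.eq_zero_iff_mem]

/-- The vector of bigraded coefficients. -/
noncomputable def LL (w : Fin n → ℕ) (e i : ℕ) : Sn n →ₗ[ℂ] (Fin e → ℂ) :=
  LinearMap.pi (fun m => Lam w i m)

theorem hilb_cI (w : Fin n → ℕ) (e i : ℕ) :
    hilb (cI w e) i = Module.finrank ℂ ((homogeneousSubmodule (Fin n) ℂ i).map (LL w e i)) := by
  unfold hilb
  apply finrank_map_eq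
  intro g hg
  rw [mk_zero, mem_cI_hom w e i g hg]
  constructor
  · intro h
    ext m
    exact h m m.2
  · intro h m hm
    exact congrFun h ⟨m, hm⟩

theorem hilb_cI_large (w : Fin n → ℕ) (e : ℕ) (z : Fin n) (hz : w z = 0)
    (hall : ∀ m < e, ∃ s : Fin n →₀ ℕ, wt w s = m) :
    ∀ᶠ i in Filter.atTop, hilb (cI w e) i = e := by
  choose! S hS using hall
  refine Filter.eventually_atTop.2 ⟨∑ m ∈ Finset.range e, (S m).degree, ?_⟩
  intro i hi
  rw [hilb_cI]
  have htop : (homogeneousSubmodule (Fin n) ℂ i).map (LL w e i) = ⊤ := by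
    rw [eq_top_iff, ← (Pi.basisFun ℂ (Fin e)).span_eq, Submodule.span_le]
    rintro _ ⟨m, rfl⟩
    rw [Pi.basisFun_apply]
    have hm : (S m).degree ≤ i := by
      refine le_trans ?_ hi
      exact Finset.single_le_sum (f := fun m => (S m).degree) (fun _ _ => Nat.zero_le _)
        (Finset.mem_range.2 m.2)
    refine ⟨monomial (S m + Finsupp.single z (i - (S m).degree)) 1, ?_, ?_⟩
    · apply isHomogeneous_monomial
      rw [map_add, Finsupp.degree_single]
      omega
    · ext m'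
      have hw : wt w (S m + Finsupp.single z (i - (S m).degree)) = m := by
        refine Eq.trans ?_ (hS m m.2)
        unfold wt
        apply Finset.sum_congr rfl
        intro j _
        rw [Finsupp.add_apply, Finsupp.single_apply]
        by_cases hj : z = j
        · rw [← hj, hz, zero_mul, zero_mul]
        · rw [if_neg hj, add_zero]
      have hd : (S m + Finsupp.single z (i - (S m).degree)).degree = i := by
        rw [map_add, Finsupp.degree_single]
        omega
      change Lam w i m' _ = _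
      rw [Lam_mon, hw, hd, Pi.single_apply]
      by_cases hmm : m' = m
      · rw [if_pos hmm, if_pos ⟨by rw [hmm], rfl⟩]
      · rw [if_neg hmm, if_neg]
        rintro ⟨h, -⟩
        exact hmm (Fin.ext h.symm)
  rw [htop, finrank_top, Module.finrank_fin_fun]

theorem hilb_cI_ne (w : Fin n → ℕ) (e i m₀ : ℕ) (hm : m₀ < e)
    (hno : ∀ s : Fin n →₀ ℕ, s.degree = i → wt w s ≠ m₀) : hilb (cI w e) i ≠ e := by
  rw [hilb_cI]
  intro heq
  have hle : (homogeneousSubmodule (Fin n) ℂ i).map (LL w e i)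
      ≤ LinearMap.ker (LinearMap.proj (R := ℂ) (φ := fun _ : Fin e => ℂ) ⟨m₀, hm⟩) := by
    rintro _ ⟨g, hg, rfl⟩
    rw [LinearMap.mem_ker, LinearMap.proj_apply]
    change Lam w i m₀ g = 0
    rw [Lam_sum]
    apply Finset.sum_eq_zero
    intro s _
    rw [if_neg]
    rintro ⟨h1, h2⟩
    exact hno s h2 h1
  have htop : (homogeneousSubmodule (Fin n) ℂ i).map (LL w e i) = ⊤ := by
    apply Submodule.eq_top_of_finrank_eq
    rw [heq, Module.finrank_fin_fun]
  rw [htop, top_le_iff, LinearMap.ker_eq_top] at hle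
  have := congrArg (fun f => f (Pi.single ⟨m₀, hm⟩ 1)) hle
  simp at this

theorem cI_zeroDim (w : Fin n → ℕ) (e : ℕ) (z : Fin n) (hz : w z = 0) (he : 1 ≤ e)
    (hall : ∀ m < e, ∃ s : Fin n →₀ ℕ, wt w s = m) : IsZeroDim (cI w e) e :=
  ⟨⟨cI_homog w e, cI_sat w e z hz⟩, he, hilb_cI_large w e z hz hall⟩

/-- The general construction of an irredundant scheme. -/
theorem cI_irr (w : Fin n → ℕ) (e : ℕ) (z : Fin n) (hz : w z = 0) (hpos : ∀ j, j ≠ z → 1 ≤ w j)
    (he : 1 ≤ e) (hall : ∀ m < e, ∃ s : Fin n →₀ ℕ, wt w s = m)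
    (t : Fin n →₀ ℕ) (ht : wt w t = e - 1)
    (hun : ∀ s ≤ t, wt w s < e ∧ ∀ s' : Fin n →₀ ℕ, wt w s' = wt w s → s'.degree = s.degree →
      s' = s) :
    IsIrredundant (cI w e) (monomial t 1) := by
  refine ⟨?_, ?_⟩
  · intro g hg
    apply act_mon_zero
    intro s hs
    obtain ⟨h1, h2⟩ := hun s hs
    have h3 := (mem_cI' w e g).1 hg (wt w s) h1 s.degree
    rw [Lam_sum] at h3
    by_cases hsg : s ∈ g.support
    · rw [Finset.sum_eq_single_of_mem s hsg, if_pos ⟨rfl, rfl⟩] at h3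
      · exact h3
      · intro s' _ hne
        rw [if_neg]
        rintro ⟨h4, h5⟩
        exact hne (h2 s' h4 h5)
    · exact notMem_support_iff.1 hsg
  · intro I' hI' hlt hap
    have h1 := irr w e z hz hpos he hall t ht I' hI' hlt
    exact act_mon_self t (hap _ h1)

theorem reg_ge {I : Ideal (Sn n)} {D r : ℕ} (hI : IsZeroDim I D) (h : ∀ i < r, hilb I i ≠ D) :
    r ≤ reg I D := by
  unfold reg
  obtain ⟨i, hi⟩ := hI.2.2.exists
  apply le_csInf ⟨i, hi⟩
  intro j hj
  by_contra hlt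
  exact h j (not_le.1 hlt) hj

theorem reg_le {I : Ideal (Sn n)} {D r : ℕ} (h : hilb I r = D) : reg I D ≤ r :=
  Nat.sInf_le h

end Pool.Agent.H9.ApolarReg
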