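import Pool.Agent.H9.ApolarReg.Hilb

namespace Pool.Agent.H9.ApolarReg

open MvPolynomial

/-! ### At least three variables -/

/-- The weights `0, 1, a, a + 1, a + 1, …`. -/
def w3 (k a : ℕ) : Fin (k + 3) → ℕ :=
  Fin.cons 0 (Fin.cons 1 (Fin.cons a (fun _ => a + 1)))

theorem wt3 (k a : ℕ) (s : Fin (k + 3) →₀ ℕ) :
    wt (w3 k a) s = s 1 + a * s 2 + (a + 1) * ∑ j : Fin k, s j.succ.succ.succ := by
  unfold wt w3
  rw [Fin.sum_univ_succ, Fin.sum_univ_succ, Fin.sum_univ_succ]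
  simp only [Fin.cons_zero, Fin.cons_succ, zero_mul, zero_add, one_mul, Finset.mul_sum]
  rw [← add_assoc]
  rfl

theorem deg3 (k : ℕ) (s : Fin (k + 3) →₀ ℕ) :
    s.degree = s 0 + s 1 + s 2 + ∑ j : Fin k, s j.succ.succ.succ := by
  rw [Finsupp.degree_eq_sum, Fin.sum_univ_succ, Fin.sum_univ_succ, Fin.sum_univ_succ, ← add_assoc,
    ← add_assoc]
  rfl

theorem ext3 (k : ℕ) (s s' : Fin (k + 3) →₀ ℕ) (h0 : s' 0 = s 0) (h1 : s' 1 = s 1)
    (h2 : s' 2 = s 2) (hs : ∑ j : Fin k, s j.succ.succ.succ = 0)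
    (hs' : ∑ j : Fin k, s' j.succ.succ.succ = 0) : s' = s := by
  rw [Finset.sum_eq_zero_iff] at hs hs'
  ext j
  refine Fin.cases h0 (fun j => ?_) j
  refine Fin.cases h1 (fun j => ?_) j
  refine Fin.cases h2 (fun j => ?_) j
  rw [hs j (Finset.mem_univ j), hs' j (Finset.mem_univ j)]

/-- The test exponent of `X_0^{d-1} X_2`. -/
noncomputable def t3 (k d : ℕ) : Fin (k + 3) →₀ ℕ :=
  Finsupp.equivFunOnFinite.symm (Fin.cons (d - 1) (Fin.cons 0 (Fin.cons 1 (fun _ => 0))))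

theorem t3_0 (k d : ℕ) : t3 k d 0 = d - 1 := rfl

theorem t3_1 (k d : ℕ) : t3 k d 1 = 0 := rfl

theorem t3_2 (k d : ℕ) : t3 k d 2 = 1 := rfl

theorem t3_s (k d : ℕ) (j : Fin k) : t3 k d j.succ.succ.succ = 0 := rfl

theorem low3 (k d a : ℕ) (hd : 1 ≤ d) (ha : d < a) : ∃ r ∈ regs (k + 3) d, a - 1 ≤ r := by
  have hall : ∀ m < a + 1, ∃ s : Fin (k + 3) →₀ ℕ, wt (w3 k a) s = m := by
    intro m _
    refine ⟨Finsupp.equivFunOnFinite.symm (Fin.cons 0 (Fin.cons m (fun _ => 0))), ?_⟩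
    rw [wt3]
    have h1 : (Finsupp.equivFunOnFinite.symm (Fin.cons 0 (Fin.cons m (fun _ => 0)))
      : Fin (k + 3) →₀ ℕ) 1 = m := rfl
    have h2 : (Finsupp.equivFunOnFinite.symm (Fin.cons 0 (Fin.cons m (fun _ => 0)))
      : Fin (k + 3) →₀ ℕ) 2 = 0 := rfl
    have h3 : ∀ j : Fin k, (Finsupp.equivFunOnFinite.symm (Fin.cons 0 (Fin.cons m (fun _ => 0)))
      : Fin (k + 3) →₀ ℕ) j.succ.succ.succ = 0 := fun _ => rfl
    rw [h1, h2, Finset.sum_congr rfl (fun j _ => h3 j)]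
    simp
  have hpos : ∀ j, j ≠ 0 → 1 ≤ w3 k a j := by
    intro j hj
    refine Fin.cases (fun h => absurd rfl h) (fun j _ => ?_) j hj
    refine Fin.cases ?_ (fun j => ?_) j
    · exact le_refl 1
    refine Fin.cases ?_ (fun j => ?_) j
    · change 1 ≤ a
      omega
    · change 1 ≤ a + 1
      omega
  have htw : wt (w3 k a) (t3 k d) = a + 1 - 1 := by
    rw [wt3, t3_1, t3_2, Finset.sum_congr rfl (fun j _ => t3_s k d j)]
    simp
  have htd : (t3 k d).degree = d := by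
    rw [deg3, t3_0, t3_1, t3_2, Finset.sum_congr rfl (fun j _ => t3_s k d j)]
    simp only [Finset.sum_const_zero]
    omega
  have hzd : IsZeroDim (cI (w3 k a) (a + 1)) (a + 1) :=
    cI_zeroDim (w3 k a) (a + 1) 0 rfl (by omega) hall
  have hirr : IsIrredundant (cI (w3 k a) (a + 1)) (monomial (t3 k d) 1) := by
    apply cI_irr (w3 k a) (a + 1) 0 rfl hpos (by omega) hall (t3 k d) htw
    intro s hs
    have h0 : s 0 ≤ d - 1 := hs 0
    have h1 : s 1 = 0 := Nat.le_zero.1 (hs 1)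
    have h2 : s 2 ≤ 1 := hs 2
    have h3 : ∑ j : Fin k, s j.succ.succ.succ = 0 := by
      apply Finset.sum_eq_zero
      intro j _
      exact Nat.le_zero.1 (hs j.succ.succ.succ)
    have hws : wt (w3 k a) s = a * s 2 := by
      rw [wt3, h1, h3]
      ring
    have hds : s.degree = s 0 + s 2 := by
      rw [deg3, h1, h3]
      ring
    refine ⟨?_, ?_⟩
    · rw [hws]
      have : a * s 2 ≤ a * 1 := Nat.mul_le_mul_left a h2
      omega
    · intro s' hw' hd'
      rw [hws, wt3] at hw'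
      rw [hds, deg3] at hd'
      have hs'0 : ∑ j : Fin k, s' j.succ.succ.succ = 0 := by
        by_contra hne
        have h4 : 1 ≤ ∑ j : Fin k, s' j.succ.succ.succ := Nat.one_le_iff_ne_zero.2 hne
        have h5 : (a + 1) * 1 ≤ (a + 1) * ∑ j : Fin k, s' j.succ.succ.succ :=
          Nat.mul_le_mul_left _ h4
        have h6 : a * s 2 ≤ a * 1 := Nat.mul_le_mul_left a h2
        omega
      rw [hs'0] at hw' hd'
      have h7 : s' 2 = s 2 := by
        rcases Nat.le_one_iff_eq_zero_or_eq_one.1 h2 with h | h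
        · rw [h] at hw' ⊢
          by_contra hne
          have h8 : a * 1 ≤ a * s' 2 := Nat.mul_le_mul_left a (Nat.one_le_iff_ne_zero.2 hne)
          omega
        · rw [h] at hw' hd' ⊢
          have h9 : s' 2 ≤ 1 := by
            by_contra hgt
            have h8 : a * 2 ≤ a * s' 2 := Nat.mul_le_mul_left a (by omega)
            omega
          rcases Nat.le_one_iff_eq_zero_or_eq_one.1 h9 with h' | h'
          · exfalso
            rw [h'] at hw' hd'
            omega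
          · exact h'
      rw [h7] at hw' hd'
      exact ext3 k s s' (by omega) (by omega) h7 h3 hs'0
  refine ⟨reg (cI (w3 k a) (a + 1)) (a + 1), ?_, ?_⟩
  · refine ⟨monomial (t3 k d) 1, cI (w3 k a) (a + 1), a + 1, ?_, ?_, hzd, hirr, rfl⟩
    · rw [ne_eq, monomial_eq_zero]
      exact one_ne_zero
    · exact isHomogeneous_monomial 1 htd
  · apply reg_ge hzd
    intro i hi
    apply hilb_cI_ne (w3 k a) (a + 1) i (a - 1) (by omega)
    intro s hs hw
    rw [wt3] at hw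
    rw [deg3] at hs
    have h2 : s 2 = 0 := by
      by_contra hne
      have h8 : a * 1 ≤ a * s 2 := Nat.mul_le_mul_left a (Nat.one_le_iff_ne_zero.2 hne)
      omega
    have h3 : ∑ j : Fin k, s j.succ.succ.succ = 0 := by
      by_contra hne
      have h8 : (a + 1) * 1 ≤ (a + 1) * ∑ j : Fin k, s j.succ.succ.succ :=
        Nat.mul_le_mul_left _ (Nat.one_le_iff_ne_zero.2 hne)
      omega
    rw [h2, h3] at hw
    omega

theorem M3 (n d : ℕ) (hn : 3 ≤ n) (hd : 1 ≤ d) : M n d = ⊤ := by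
  obtain ⟨k, rfl⟩ : ∃ k, n = k + 3 := ⟨n - 3, by omega⟩
  rw [ENat.eq_top_iff_forall_ge]
  intro m
  obtain ⟨r, hr, hle⟩ := low3 k d (m + d + 1) hd (by omega)
  refine le_trans ?_ (le_iSup₂ (f := fun (r : ℕ) (_ : r ∈ regs (k + 3) d) => (r : ℕ∞)) r hr)
  exact_mod_cast (by omega : m ≤ r)

/-! ### Two variables: the lower bound -/

theorem wt2 (s : Fin 2 →₀ ℕ) : wt ![0, 1] s = s 1 := by
  unfold wt
  rw [Fin.sum_univ_two]
  simp

theorem deg2 (s : Fin 2 →₀ ℕ) : s.degree = s 0 + s 1 := by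
  rw [Finsupp.degree_eq_sum, Fin.sum_univ_two]

theorem low2 (d : ℕ) : ∃ r ∈ regs 2 d, d ≤ r := by
  have hall : ∀ m < d + 1, ∃ s : Fin 2 →₀ ℕ, wt ![0, 1] s = m := by
    intro m _
    refine ⟨Finsupp.single 1 m, ?_⟩
    rw [wt2, Finsupp.single_eq_same]
  have hpos : ∀ j, j ≠ 0 → 1 ≤ (![0, 1] : Fin 2 → ℕ) j := by
    intro j hj
    fin_cases j
    · exact absurd rfl hj
    · exact le_refl 1
  have hzd : IsZeroDim (cI ![0, 1] (d + 1)) (d + 1) :=
    cI_zeroDim ![0, 1] (d + 1) 0 rfl (by omega) hall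
  have hirr : IsIrredundant (cI ![0, 1] (d + 1)) (monomial (Finsupp.single 1 d) 1) := by
    apply cI_irr ![0, 1] (d + 1) 0 rfl hpos (by omega) hall _ (by
      rw [wt2, Finsupp.single_eq_same]; omega)
    intro s hs
    have h1 : s 1 ≤ d := by
      have := hs 1
      rwa [Finsupp.single_eq_same] at this
    refine ⟨by rw [wt2]; omega, ?_⟩
    intro s' hw hd
    rw [wt2, wt2] at hw
    rw [deg2, deg2] at hd
    ext j
    fin_cases j
    · change s' 0 = s 0
      omega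
    · exact hw
  refine ⟨reg (cI ![0, 1] (d + 1)) (d + 1), ?_, ?_⟩
  · refine ⟨monomial (Finsupp.single 1 d) 1, cI ![0, 1] (d + 1), d + 1, ?_, ?_, hzd, hirr, rfl⟩
    · rw [ne_eq, monomial_eq_zero]
      exact one_ne_zero
    · exact isHomogeneous_monomial 1 (Finsupp.degree_single 1 d)
  · apply reg_ge hzd
    intro i hi
    apply hilb_cI_ne ![0, 1] (d + 1) i d (by omega)
    intro s hs hw
    rw [wt2] at hw
    rw [deg2] at hs
    omega

/-! ### One variable: existence -/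

theorem low1 (d : ℕ) : ∃ r, r ∈ regs 1 d := by
  have hw : ∀ s : Fin 1 →₀ ℕ, wt ![0] s = 0 := by
    intro s
    unfold wt
    simp
  have hall : ∀ m < 1, ∃ s : Fin 1 →₀ ℕ, wt ![0] s = m := by
    intro m hm
    exact ⟨0, by rw [hw]; omega⟩
  have hpos : ∀ j, j ≠ 0 → 1 ≤ (![0] : Fin 1 → ℕ) j := by
    intro j hj
    exact absurd (Subsingleton.elim j 0) hj
  have hzd : IsZeroDim (cI ![0] 1) 1 := cI_zeroDim ![0] 1 0 rfl le_rfl hall
  have hirr : IsIrredundant (cI ![0] 1) (monomial (Finsupp.single 0 d) 1) := by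
    apply cI_irr ![0] 1 0 rfl hpos le_rfl hall _ (by rw [hw])
    intro s _
    refine ⟨by rw [hw]; omega, ?_⟩
    intro s' _ hd
    rw [Finsupp.degree_eq_sum, Finsupp.degree_eq_sum] at hd
    simp only [Finset.univ_unique, Fin.default_eq_zero, Finset.sum_singleton] at hd
    apply Finsupp.ext
    intro j
    rw [Subsingleton.elim j 0]
    exact hd
  refine ⟨_, monomial (Finsupp.single 0 d) 1, cI ![0] 1, 1, ?_, ?_, hzd, hirr, rfl⟩
  · rw [ne_eq, monomial_eq_zero]
    exact one_ne_zero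
  · exact isHomogeneous_monomial 1 (Finsupp.degree_single 0 d)

end Pool.Agent.H9.ApolarReg
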