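import Pool.Agent.H9.ApolarReg.Upper
import Pool.Agent.H9.ApolarReg.Low

namespace Pool.Agent.H9.ApolarReg

theorem main (d : ℕ) (hd : 1 ≤ d) :
    ((regs 1 d).Nonempty ∧ M 1 d = 0) ∧ M 2 d = d ∧ ∀ n, 3 ≤ n → M n d = ⊤ := by
  refine ⟨⟨low1 d, ?_⟩, ?_, fun n hn => M3 n d hn hd⟩
  · unfold M
    rw [← nonpos_iff_eq_zero]
    apply iSup₂_le
    rintro r ⟨f, I, D, _, _, hI, _, rfl⟩
    rw [up1 I D hI]
    exact le_refl _
  · apply le_antisymm
    · unfold M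
      apply iSup₂_le
      rintro r ⟨f, I, D, _, hf, hI, hirr, rfl⟩
      exact_mod_cast up2 d f hf I D hI hirr
    · obtain ⟨r, hr, hle⟩ := low2 d
      refine le_trans ?_ (le_iSup₂ (f := fun (r : ℕ) (_ : r ∈ regs 2 d) => (r : ℕ∞)) r hr)
      exact_mod_cast hle

end Pool.Agent.H9.ApolarReg
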