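import Pool.Agent.H9.ApolarReg.Hilb

namespace Pool.Agent.H9.ApolarReg

open MvPolynomial

/-! ### Generalities -/

theorem hc_mul {n : ℕ} (i j : ℕ) (a b : Sn n) (ha : a.IsHomogeneous i) :
    homogeneousComponent (i + j) (a * b) = a * homogeneousComponent j b := by
  conv_lhs => rw [← sum_homogeneousComponent b, Finset.mul_sum, map_sum]
  have h1 : ∀ k, homogeneousComponent (i + j) (a * homogeneousComponent k b)
      = if i + k = i + j then a * homogeneousComponent k b else 0 := by
    intro k
    rw [homogeneousComponent_of_mem (ha.mul (homogeneousComponent_isHomogeneous k b))]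
    by_cases h : i + k = i + j
    · rw [if_pos h, if_pos h.symm]
    · rw [if_neg h, if_neg (fun h' => h h'.symm)]
  simp only [h1]
  by_cases hj : j < b.totalDegree + 1
  · rw [Finset.sum_eq_single_of_mem j (Finset.mem_range.2 hj), if_pos rfl]
    intro k _ hk
    rw [if_neg (by omega)]
  · rw [homogeneousComponent_eq_zero j b (by omega), mul_zero]
    apply Finset.sum_eq_zero
    intro k hk
    have := Finset.mem_range.1 hk
    rw [if_neg (by omega)]

theorem form_finite {n : ℕ} (i : ℕ) : Module.Finite ℂ (homogeneousSubmodule (Fin n) ℂ i) := by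
  rw [Module.finite_def, Submodule.fg_top]
  exact homogeneousSubmodule_fg _ _ i

/-- The linear form `x - b y`. -/
noncomputable def lf (b : ℂ) : Sn 2 := X 0 - C b * X 1

theorem lf_hom (b : ℂ) : (lf b).IsHomogeneous 1 := by
  unfold lf
  apply IsHomogeneous.sub (isHomogeneous_X _ _)
  exact (isHomogeneous_X _ _).C_mul b

theorem lf_ne (b : ℂ) : lf b ≠ 0 := by
  intro h
  have := congrArg (eval ![1, 0]) h
  simp [lf] at this

/-- The substitution `x ↦ b y`, `y ↦ y`. -/
noncomputable def sb (b : ℂ) : Sn 2 →ₐ[ℂ] Sn 2 := aeval ![C b * X 1, X 1]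

theorem sb_0 (b : ℂ) : sb b (X 0) = C b * X 1 := by
  unfold sb
  rw [aeval_X]
  rfl

theorem sb_1 (b : ℂ) : sb b (X 1) = X 1 := by
  unfold sb
  rw [aeval_X]
  rfl

theorem sub_dvd (b : ℂ) (F : Sn 2) : lf b ∣ F - sb b F := by
  induction F using MvPolynomial.induction_on with
  | C a =>
    have : sb b (C a) = C a := (sb b).commutes a
    rw [this, sub_self]
    exact dvd_zero _
  | add p q hp hq =>
    rw [map_add]
    have : p + q - (sb b p + sb b q) = (p - sb b p) + (q - sb b q) := by ring
    rw [this]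
    exact dvd_add hp hq
  | mul_X p i hp =>
    rw [map_mul]
    have : p * X i - sb b p * sb b (X i)
        = (p - sb b p) * X i + sb b p * (X i - sb b (X i)) := by ring
    rw [this]
    apply dvd_add (hp.mul_right _) (Dvd.dvd.mul_left _ _)
    fin_cases i
    · change lf b ∣ X 0 - sb b (X 0)
      rw [sb_0]
      exact dvd_refl _
    · change lf b ∣ X 1 - sb b (X 1)
      rw [sb_1, sub_self]
      exact dvd_zero _

theorem hom_eval (b : ℂ) (r : ℕ) (F : Sn 2) (hF : F.IsHomogeneous r) :
    sb b F = C (eval ![b, 1] F) * X 1 ^ r := by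
  unfold sb
  rw [aeval_def, eval₂_eq', eval_eq', map_sum, Finset.sum_mul]
  apply Finset.sum_congr rfl
  intro s hs
  have hd : s 0 + s 1 = r := by
    by_contra hne
    apply mem_support_iff.1 hs
    apply hF.coeff_eq_zero
    rw [Finsupp.degree_eq_sum, Fin.sum_univ_two]
    exact hne
  rw [Fin.prod_univ_two, Fin.prod_univ_two]
  simp only [Matrix.cons_val_zero, Matrix.cons_val_one, one_pow, mul_one, mul_pow, C_mul, C_pow]
  rw [← hd, pow_add]
  change C (coeff s F) * _ = _
  ring

/-- Division of a form by `x - b y`, with homogeneous quotient. -/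
theorem div_lf (b : ℂ) (r : ℕ) (F : Sn 2) (hF : F.IsHomogeneous (r + 1)) :
    ∃ u : Sn 2, u.IsHomogeneous r ∧ F = C (eval ![b, 1] F) * X 1 ^ (r + 1) + lf b * u := by
  obtain ⟨v, hv⟩ := sub_dvd b F
  rw [hom_eval b (r + 1) F hF] at hv
  refine ⟨homogeneousComponent r v, homogeneousComponent_isHomogeneous r v, ?_⟩
  have h1 : (F - C (eval ![b, 1] F) * X 1 ^ (r + 1)).IsHomogeneous (r + 1) := by
    apply hF.sub
    exact (isHomogeneous_X_pow 1 (r + 1)).C_mul _
  have h2 := homogeneousComponent_eq_self h1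
  rw [hv, add_comm r 1, hc_mul 1 r _ _ (lf_hom b)] at h2
  rw [h2, ← hv]
  ring

/-- A form vanishing at all points `(b, 1)` is zero. -/
theorem form_zero (r : ℕ) (F : Sn 2) (hF : F.IsHomogeneous r) (h : ∀ b, eval ![b, 1] F = 0) :
    F = 0 := by
  have h1 : X 1 * F = 0 := by
    apply MvPolynomial.funext
    intro v
    rw [map_mul, eval_X, map_zero]
    by_cases hv : v 1 = 0
    · rw [hv, zero_mul]
    · have h2 := hom_eval (v 0 / v 1) r F hF
      rw [h, C_0, zero_mul] at h2
      have h3 : eval v (sb (v 0 / v 1) F) = 0 := by rw [h2, map_zero]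
      have h4 : (eval v).comp (sb (v 0 / v 1) : Sn 2 →+* Sn 2) = eval v := by
        apply MvPolynomial.ringHom_ext
        · intro c
          have : sb (v 0 / v 1) (C c) = C c := (sb (v 0 / v 1)).commutes c
          rw [RingHom.comp_apply, AlgHom.coe_toRingHom, this]
        · intro i
          rw [RingHom.comp_apply, AlgHom.coe_toRingHom]
          fin_cases i
          · change eval v (sb (v 0 / v 1) (X 0)) = eval v (X 0)
            rw [sb_0, map_mul, eval_C, eval_X, eval_X, div_mul_cancel₀ _ hv]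
          · change eval v (sb (v 0 / v 1) (X 1)) = eval v (X 1)
            rw [sb_1]
      have h5 := congrArg (fun φ : Sn 2 →+* ℂ => φ F) h4
      simp only [RingHom.comp_apply, AlgHom.coe_toRingHom] at h5
      rw [← h5, h3, mul_zero]
  rcases mul_eq_zero.1 h1 with h2 | h2
  · exact absurd h2 (X_ne_zero 1)
  · exact h2

/-- Every binary form of positive degree has a linear factor. -/
theorem exists_linear_factor (r : ℕ) (F : Sn 2) (hF : F.IsHomogeneous (r + 1)) :
    ∃ l u : Sn 2, l.IsHomogeneous 1 ∧ l ≠ 0 ∧ u.IsHomogeneous r ∧ F = l * u := by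
  let q : Polynomial ℂ := aeval ![Polynomial.X, 1] F
  have hq : ∀ b, q.eval b = eval ![b, 1] F := by
    intro b
    change Polynomial.eval b (aeval ![Polynomial.X, 1] F) = _
    rw [← Polynomial.coe_evalRingHom, ← AlgHom.coe_toRingHom, ← RingHom.comp_apply]
    congr 1
    ext i
    · simp
    · fin_cases i <;> simp
  by_cases hdeg : q.degree = 0
  · obtain ⟨c, hc⟩ : ∃ c, q = Polynomial.C c := ⟨_, Polynomial.eq_C_of_degree_eq_zero hdeg⟩
    have h1 : F - C c * X 1 ^ (r + 1) = 0 := by
      apply form_zero (r + 1)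
      · exact hF.sub ((isHomogeneous_X_pow 1 (r + 1)).C_mul _)
      · intro b
        rw [map_sub, ← hq b, hc]
        simp
    refine ⟨X 1, C c * X 1 ^ r, isHomogeneous_X _ _, X_ne_zero 1,
      (isHomogeneous_X_pow 1 r).C_mul _, ?_⟩
    rw [sub_eq_zero.1 h1]
    ring
  · obtain ⟨b, hb⟩ := IsAlgClosed.exists_root q hdeg
    rw [Polynomial.IsRoot.def, hq] at hb
    obtain ⟨u, hu, hFu⟩ := div_lf b r F hF
    rw [hb, C_0, zero_mul, zero_add] at hFu
    exact ⟨lf b, u, lf_hom b, lf_ne b, hu, hFu⟩

end Pool.Agent.H9.ApolarReg
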