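import Pool.Agent.H9.ApolarReg.Plane

namespace Pool.Agent.H9.ApolarReg

open MvPolynomial

variable {n : ℕ}

/-- The colon ideal `(I : l)`. -/
noncomputable def col (I : Ideal (Sn n)) (l : Sn n) : Ideal (Sn n) :=
  Submodule.comap (LinearMap.mulLeft (Sn n) l) I

theorem mem_col (I : Ideal (Sn n)) (l v : Sn n) : v ∈ col I l ↔ l * v ∈ I := Iff.rfl

theorem col_scheme (I : Ideal (Sn n)) (hI : IsSchemeIdeal I) (l : Sn n) (hl : l.IsHomogeneous 1) :
    IsSchemeIdeal (col I l) := by
  refine ⟨?_, ?_⟩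
  · intro v hv i
    rw [mem_col] at hv ⊢
    rw [← hc_mul 1 i l v hl]
    exact hI.1 _ hv _
  · intro v hv
    rw [mem_col]
    apply hI.2
    intro i
    have := hv i
    rw [mem_col] at this
    rwa [mul_left_comm]

theorem act_exists_comp (I : Ideal (Sn n)) (hI : IsHomog I) (f : Sn n) (h : ¬ IsApolar I f) :
    ∃ j v, v ∈ I ∧ v.IsHomogeneous j ∧ act v f ≠ 0 := by
  unfold IsApolar at h
  push Not at h
  obtain ⟨g, hg, hgf⟩ := h
  by_contra hcon
  push Not at hcon
  apply hgf
  rw [← sum_homogeneousComponent g, act_sum]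
  apply Finset.sum_eq_zero
  intro j _
  exact hcon j _ (hI g hg j) (homogeneousComponent_isHomogeneous j g)

theorem hilb_top (i : ℕ) : hilb (⊤ : Ideal (Sn n)) i = 0 := by
  unfold hilb
  have : (homogeneousSubmodule (Fin n) ℂ i).map (Ideal.Quotient.mkₐ ℂ (⊤ : Ideal (Sn n))).toLinearMap
      = ⊥ := by
    rw [eq_bot_iff]
    rintro _ ⟨g, _, rfl⟩
    rw [Submodule.mem_bot, mk_zero]
    exact Submodule.mem_top
  rw [this, finrank_bot]

theorem one_notMem {I : Ideal (Sn n)} {D : ℕ} (hI : IsZeroDim I D) : (1 : Sn n) ∉ I := by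
  intro h
  have htop : I = ⊤ := (Ideal.eq_top_iff_one I).2 h
  obtain ⟨i, hi⟩ := hI.2.2.exists
  rw [htop, hilb_top] at hi
  have := hI.2.1
  omega

theorem hilb_bot_lt (i : ℕ) : hilb (⊥ : Ideal (Sn 2)) i < hilb (⊥ : Ideal (Sn 2)) (i + 1) := by
  have hb : ∀ j, hilb (⊥ : Ideal (Sn 2)) j = Module.finrank ℂ (homogeneousSubmodule (Fin 2) ℂ j) := by
    intro j
    unfold hilb
    rw [finrank_map_eq _ _ LinearMap.id (fun u _ => by rw [mk_zero]; rfl), Submodule.map_id]
  rw [hb, hb]
  have hfin := form_finite (n := 2) (i + 1)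
  have hinj : Function.Injective (LinearMap.mulLeft ℂ (X 0 : Sn 2)) := by
    intro a b hab
    exact mul_left_cancel₀ (X_ne_zero 0) hab
  have h1 : Module.finrank ℂ (homogeneousSubmodule (Fin 2) ℂ i)
      = Module.finrank ℂ ((homogeneousSubmodule (Fin 2) ℂ i).map (LinearMap.mulLeft ℂ (X 0 : Sn 2))) :=
    (Submodule.equivMapOfInjective _ hinj _).finrank_eq
  rw [h1]
  apply Submodule.finrank_lt_finrank_of_lt
  refine lt_of_le_of_ne ?_ ?_
  · rintro _ ⟨g, hg, rfl⟩
    have := (isHomogeneous_X ℂ (0 : Fin 2)).mul hg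
    rw [add_comm] at this
    exact this
  · intro heq
    have h2 : (X 1 ^ (i + 1) : Sn 2) ∈ (homogeneousSubmodule (Fin 2) ℂ i).map
        (LinearMap.mulLeft ℂ (X 0 : Sn 2)) := by
      rw [heq]
      exact isHomogeneous_X_pow 1 (i + 1)
    obtain ⟨g, _, hg⟩ := h2
    have h3 := congrArg (eval ![0, 1]) hg
    simp at h3

/-- A regular linear form gives equality of consecutive Hilbert function values. -/
theorem hilb_step (I : Ideal (Sn n)) (l : Sn n) (hl : l.IsHomogeneous 1)
    (hreg : ∀ v, l * v ∈ I → v ∈ I) (i : ℕ)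
    (hsurj : ∀ F : Sn n, F.IsHomogeneous (i + 1) → ∃ u : Sn n, u.IsHomogeneous i ∧ F - l * u ∈ I) :
    hilb I (i + 1) = hilb I i := by
  unfold hilb
  set φ : (Sn n ⧸ I) →ₗ[ℂ] (Sn n ⧸ I) := LinearMap.mulLeft ℂ (Ideal.Quotient.mkₐ ℂ I l) with hφ
  have hinj : Function.Injective φ := by
    rw [← LinearMap.ker_eq_bot, eq_bot_iff]
    intro x hx
    obtain ⟨v, rfl⟩ := Ideal.Quotient.mkₐ_surjective ℂ I x
    rw [LinearMap.mem_ker, hφ, LinearMap.mulLeft_apply, ← map_mul, ← AlgHom.toLinearMap_apply,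
      mk_zero] at hx
    rw [Submodule.mem_bot, ← AlgHom.toLinearMap_apply, mk_zero]
    exact hreg v hx
  have heq : (homogeneousSubmodule (Fin n) ℂ (i + 1)).map (Ideal.Quotient.mkₐ ℂ I).toLinearMap
      = ((homogeneousSubmodule (Fin n) ℂ i).map (Ideal.Quotient.mkₐ ℂ I).toLinearMap).map φ := by
    apply le_antisymm
    · rintro _ ⟨F, hF, rfl⟩
      obtain ⟨u, hu, hFu⟩ := hsurj F hF
      refine ⟨_, ⟨u, hu, rfl⟩, ?_⟩
      rw [hφ, LinearMap.mulLeft_apply, AlgHom.toLinearMap_apply, ← map_mul,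
        ← AlgHom.toLinearMap_apply, ← sub_eq_zero, ← map_sub, mk_zero]
      have := I.neg_mem hFu
      rwa [neg_sub] at this
    · rintro _ ⟨_, ⟨u, hu, rfl⟩, rfl⟩
      refine ⟨l * u, ?_, ?_⟩
      · have := hl.mul hu
        rw [add_comm] at this
        exact this
      · rw [hφ, LinearMap.mulLeft_apply, AlgHom.toLinearMap_apply, AlgHom.toLinearMap_apply,
          map_mul]
  rw [heq]
  exact (Submodule.equivMapOfInjective φ hinj _).finrank_eq.symm

theorem up2 (d : ℕ) (f : Sn 2) (hf : f.IsHomogeneous d) (I : Ideal (Sn 2)) (D : ℕ)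
    (hI : IsZeroDim I D) (hirr : IsIrredundant I f) : reg I D ≤ d := by
  classical
  -- a nonzero form of minimal degree
  have hIbot : I ≠ ⊥ := by
    rintro rfl
    obtain ⟨N, hN⟩ := Filter.eventually_atTop.1 hI.2.2
    have h1 := hilb_bot_lt N
    rw [hN N le_rfl, hN (N + 1) (by omega)] at h1
    omega
  have hex : ∃ r, ∃ g ∈ I, g ≠ 0 ∧ g.IsHomogeneous r := by
    obtain ⟨g, hg, hg0⟩ := Submodule.exists_mem_ne_zero_of_ne_bot hIbot
    by_contra hcon
    push Not at hcon
    apply hg0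
    rw [← sum_homogeneousComponent g]
    apply Finset.sum_eq_zero
    intro j _
    by_contra hne
    exact hcon j _ (hI.1.1 g hg j) hne (homogeneousComponent_isHomogeneous j g)
  set r := Nat.find hex with hr
  obtain ⟨g, hgI, hg0, hghom⟩ : ∃ g ∈ I, g ≠ 0 ∧ g.IsHomogeneous r := Nat.find_spec hex
  have hmin : ∀ (j : ℕ) (v : Sn 2), v ∈ I → v ≠ 0 → v.IsHomogeneous j → r ≤ j :=
    fun j v hv hv0 hvj => Nat.find_min' hex ⟨v, hv, hv0, hvj⟩
  -- `r` is positive
  have hr1 : r ≠ 0 := by
    intro h0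
    rw [h0] at hghom
    have h1 : g.totalDegree = 0 := (totalDegree_zero_iff_isHomogeneous _).2 hghom
    rw [totalDegree_eq_zero_iff_eq_C] at h1
    have hc : coeff 0 g ≠ 0 := by
      intro hc
      rw [hc, C_0] at h1
      exact hg0 h1
    apply one_notMem hI
    have h2 := I.mul_mem_left (C (coeff 0 g)⁻¹) hgI
    rw [h1, ← C_mul, coeff_C, if_pos rfl, inv_mul_cancel₀ hc, C_1] at h2
    exact h2
  obtain ⟨r', hr'⟩ : ∃ r', r = r' + 1 := ⟨r - 1, by omega⟩
  rw [hr'] at hghom
  -- `r ≤ d + 1` from irredundancy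
  have hrd : r' ≤ d := by
    obtain ⟨l, u, hl, hl0, hu, hgu⟩ := exists_linear_factor r' g hghom
    have hu0 : u ≠ 0 := by
      rintro rfl
      rw [mul_zero] at hgu
      exact hg0 hgu
    have huI : u ∉ I := by
      intro h
      have := hmin r' u h hu0 hu
      omega
    have hlt : I < col I l := by
      refine lt_of_le_of_ne (fun v hv => (mem_col I l v).2 (I.mul_mem_left l hv)) ?_
      intro heq
      apply huI
      rw [heq, mem_col, ← hgu]
      exact hgI
    have hna := hirr.2 (col I l) (col_scheme I hI.1 l hl) hlt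
    obtain ⟨j, v, hv, hvj, hvf⟩ := act_exists_comp (col I l) (col_scheme I hI.1 l hl).1 f hna
    have hjd : j ≤ d := by
      by_contra hlt'
      exact hvf (act_high v f d j hf hvj (by omega))
    have hv0 : v ≠ 0 := by
      rintro rfl
      exact hvf (act_zero f)
    have := hmin (1 + j) (l * v) hv (mul_ne_zero hl0 hv0) (hl.mul hvj)
    omega
  -- a regular linear form
  obtain ⟨b, hb⟩ : ∃ b, eval ![b, 1] g ≠ 0 := by
    by_contra hcon
    push Not at hcon
    exact hg0 (form_zero (r' + 1) g hghom hcon)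
  set c := eval ![b, 1] g with hc
  obtain ⟨u, hu, hgu⟩ := div_lf b r' g hghom
  rw [← hc] at hgu
  have hreg : ∀ v, lf b * v ∈ I → v ∈ I := by
    intro v hv
    have htop : X 1 ^ (r' + 1) * v ∈ I := by
      have h1 : g * v ∈ I := I.mul_mem_right v hgI
      have h2 : u * (lf b * v) ∈ I := I.mul_mem_left u hv
      have h3 := I.sub_mem h1 h2
      have h4 : g * v - u * (lf b * v) = C c * (X 1 ^ (r' + 1) * v) := by
        rw [hgu]
        ring
      rw [h4] at h3
      have h5 := I.mul_mem_left (C c⁻¹) h3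
      rwa [← mul_assoc, ← C_mul, inv_mul_cancel₀ hb, C_1, one_mul] at h5
    have hdown : ∀ m : ℕ, X 1 ^ (m + 1) * v ∈ I → X 1 ^ m * v ∈ I := by
      intro m hm
      apply hI.1.2
      intro i
      fin_cases i
      · change X 0 * (X 1 ^ m * v) ∈ I
        have e : X 0 * (X 1 ^ m * v) = X 1 ^ m * (lf b * v) + C b * (X 1 ^ (m + 1) * v) := by
          unfold lf
          ring
        rw [e]
        exact I.add_mem (I.mul_mem_left _ hv) (I.mul_mem_left _ hm)
      · change X 1 * (X 1 ^ m * v) ∈ I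
        rw [← mul_assoc, ← pow_succ']
        exact hm
    have hall : ∀ m : ℕ, X 1 ^ m * v ∈ I → v ∈ I := by
      intro m
      induction m with
      | zero => intro h; rwa [pow_zero, one_mul] at h
      | succ m ih => intro h; exact ih (hdown m h)
    exact hall _ htop
  have hstep : ∀ i, r' ≤ i → hilb I (i + 1) = hilb I i := by
    intro i hi
    apply hilb_step I (lf b) (lf_hom b) hreg i
    intro F hF
    obtain ⟨u', hu', hFu'⟩ := div_lf b i F hF
    obtain ⟨α, hα⟩ : ∃ α, α = eval ![b, 1] F := ⟨_, rfl⟩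
    rw [← hα] at hFu'
    refine ⟨u' - C (α * c⁻¹) * (X 1 ^ (i - r') * u), ?_, ?_⟩
    · apply hu'.sub
      apply IsHomogeneous.C_mul
      have := (isHomogeneous_X_pow (R := ℂ) (1 : Fin 2) (i - r')).mul hu
      rwa [show i - r' + r' = i by omega] at this
    · have e : F - lf b * (u' - C (α * c⁻¹) * (X 1 ^ (i - r') * u))
          = C (α * c⁻¹) * X 1 ^ (i - r') * g := by
        have e1 : (C α : Sn 2) = C (α * c⁻¹) * (C c : Sn 2) := by
          rw [← C_mul, mul_assoc, inv_mul_cancel₀ hb, mul_one]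
        have e2 : (X 1 : Sn 2) ^ (i + 1) = X 1 ^ (i - r') * X 1 ^ (r' + 1) := by
          rw [← pow_add]
          congr 1
          omega
        rw [e1, e2] at hFu'
        linear_combination hFu' - C (α * c⁻¹) * X 1 ^ (i - r') * hgu
      rw [e]
      exact I.mul_mem_left _ hgI
  have hconst : ∀ k, hilb I (r' + k) = hilb I r' := by
    intro k
    induction k with
    | zero => rfl
    | succ k ih => rw [← add_assoc, hstep _ (by omega), ih]
  obtain ⟨N, hN⟩ := Filter.eventually_atTop.1 hI.2.2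
  have hD : hilb I r' = D := by
    rw [← hconst N, hN _ (by omega)]
  exact (reg_le hD).trans hrd

/-- One variable: the regularity is zero. -/
theorem up1 (I : Ideal (Sn 1)) (D : ℕ) (hI : IsZeroDim I D) : reg I D = 0 := by
  have hX : ∀ m : ℕ, (X 0 : Sn 1) ^ m ∉ I := by
    intro m
    induction m with
    | zero => rw [pow_zero]; exact one_notMem hI
    | succ m ih =>
      intro h
      apply ih
      apply hI.1.2
      intro i
      rw [Subsingleton.elim i 0, ← pow_succ']
      exact h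
  have hform : ∀ (i : ℕ) (F : Sn 1), F.IsHomogeneous i → ∃ c : ℂ, F = c • (X 0 : Sn 1) ^ i := by
    intro i F hF
    refine ⟨coeff (Finsupp.single 0 i) F, ?_⟩
    apply MvPolynomial.ext
    intro s
    rw [coeff_smul, coeff_X_pow, smul_eq_mul]
    by_cases hs : Finsupp.single 0 i = s
    · rw [if_pos hs, mul_one, hs]
    · rw [if_neg hs, mul_zero]
      apply hF.coeff_eq_zero
      intro hd
      apply hs
      apply Finsupp.ext
      intro j
      rw [Subsingleton.elim j 0, Finsupp.single_eq_same, ← hd, Finsupp.degree_eq_sum]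
      simp
  have h1 : ∀ i, hilb I i = 1 := by
    intro i
    unfold hilb
    have : (homogeneousSubmodule (Fin 1) ℂ i).map (Ideal.Quotient.mkₐ ℂ I).toLinearMap
        = Submodule.span ℂ {(Ideal.Quotient.mkₐ ℂ I).toLinearMap ((X 0 : Sn 1) ^ i)} := by
      apply le_antisymm
      · rintro _ ⟨F, hF, rfl⟩
        obtain ⟨c, rfl⟩ := hform i F hF
        rw [map_smul]
        exact Submodule.smul_mem _ _ (Submodule.mem_span_singleton_self _)
      · rw [Submodule.span_singleton_le_iff_mem]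
        exact ⟨_, isHomogeneous_X_pow 0 i, rfl⟩
    rw [this]
    apply finrank_span_singleton
    rw [ne_eq, mk_zero]
    exact hX i
  obtain ⟨N, hN⟩ := hI.2.2.exists
  rw [h1] at hN
  exact Nat.le_zero.1 (reg_le (by rw [h1, hN]))

end Pool.Agent.H9.ApolarReg
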